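import Pool.Agent.H79.MC.Targets2

/-!
# The test approximates the value (board mxc_modules, module EST)
-/

set_option autoImplicit false

namespace Pool.Agent.H51.MC

open Finset Pool.Agent.H79.MC

theorem blk_sum (a g : ℕ) (f : ℕ → ℝ) (q : ℕ) :
    ∑ i ∈ range (2 ^ a * q), (if i % 2 ^ a = bPos a g (i / 2 ^ a) then f i else 0) =
      ∑ t ∈ range q, f (2 ^ a * t + bPos a g t) := by
  have h2 : 0 < 2 ^ a := by positivity
  induction q with
  | zero => simp
  | succ q ih =>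
    rw [mul_add, mul_one, Finset.sum_range_add, ih, Finset.sum_range_succ]
    congr 1
    have : ∀ r ∈ range (2 ^ a), (if (2 ^ a * q + r) % 2 ^ a = bPos a g ((2 ^ a * q + r) / 2 ^ a)
        then f (2 ^ a * q + r) else 0) = if r = bPos a g q then f (2 ^ a * q + r) else 0 := by
      intro r hr
      have hr := Finset.mem_range.1 hr
      rw [Nat.mul_add_mod, Nat.mod_eq_of_lt hr, Nat.mul_add_div h2, Nat.div_eq_of_lt hr, add_zero]
    rw [Finset.sum_congr rfl this, Finset.sum_ite_eq']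
    rw [if_pos]
    exact Finset.mem_range.2 (Nat.mod_lt _ h2)

theorem eq_sign (p r : ℕ) (hp : p ≤ 1) (hr : r ≤ 1) :
    (if p = r then (1 : ℝ) else 0) = (1 + (2 * p - 1) * (2 * r - 1)) / 2 := by
  interval_cases p <;> interval_cases r <;> norm_num

/-- The error of the sample for the vertex `u`. -/
noncomputable def err (a q n : ℕ) (A : ℕ → ℕ → ℕ) (j g : ℕ) (z : ℕ → ℕ) (u : ℕ) : ℝ :=
  ∑ v ∈ Finset.range (2 ^ a * q), (A ((u + j) % n) ((v + j) % n) : ℝ) * (2 * z v - 1) -
        (2 : ℝ) ^ a * ∑ t ∈ Finset.range q,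
          (A ((u + j) % n) ((2 ^ a * t + bPos a g t + j) % n) : ℝ) *
            (2 * z (2 ^ a * t + bPos a g t) - 1)

/-- The constant part. -/
noncomputable def cst (a q n : ℕ) (A : ℕ → ℕ → ℕ) (j g : ℕ) (z : ℕ → ℕ) : ℝ :=
  ∑ u ∈ range (2 ^ a * q), ∑ v ∈ range (2 ^ a * q),
    (A ((u + j) % n) ((v + j) % n) : ℝ) * (if z u = z v then 1 else 0) +
  ∑ u ∈ Ico (2 ^ a * q) n, (∑ v ∈ range (2 ^ a * q), (A ((u + j) % n) ((v + j) % n) : ℝ) -
    (2 : ℝ) ^ a * ∑ t ∈ Finset.range q, (A ((u + j) % n) ((2 ^ a * t + bPos a g t + j) % n) : ℝ))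

theorem pos_lt (a q g t : ℕ) (ht : t < q) : 2 ^ a * t + bPos a g t < 2 ^ a * q := by
  have h2 : 0 < 2 ^ a := by positivity
  have h1 : bPos a g t < 2 ^ a := Nat.mod_lt _ h2
  calc 2 ^ a * t + bPos a g t < 2 ^ a * t + 2 ^ a := by omega
    _ = 2 ^ a * (t + 1) := by ring
    _ ≤ 2 ^ a * q := Nat.mul_le_mul_left _ ht

theorem diff_eq (a q n : ℕ) (A : ℕ → ℕ → ℕ) (j g : ℕ) (z : ℕ → ℕ) (hb : 2 ^ a * q ≤ n)
    (hs : ∀ u v, A u v = A v u) (hz : ∀ i < n, z i ≤ 1)
    (hg : ∀ t < q, bSg a g t = z (2 ^ a * t + bPos a g t))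
    (y : ℕ → ℕ) (hy : ∀ i < n, y i ≤ 1) (hyz : ∀ i < 2 ^ a * q, y i = z i) :
    (valF n A j y : ℝ) - testF a q n A j g y =
      cst a q n A j g z + ∑ u ∈ Ico (2 ^ a * q) n, (2 * y u - 1) * err a q n A j g z u := by
  have hsplit : ∀ f : ℕ → ℝ, ∑ i ∈ range n, f i =
      ∑ i ∈ range (2 ^ a * q), f i + ∑ i ∈ Ico (2 ^ a * q) n, f i := by
    intro f
    rw [Finset.range_eq_Ico, Finset.range_eq_Ico, Finset.sum_Ico_consecutive f (Nat.zero_le _) hb]
  -- the value
  have hval : (valF n A j y : ℝ) =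
      ∑ u ∈ range (2 ^ a * q), ∑ v ∈ range (2 ^ a * q),
        (A ((u + j) % n) ((v + j) % n) : ℝ) * (if z u = z v then 1 else 0) +
      2 * ∑ u ∈ Ico (2 ^ a * q) n, ∑ v ∈ range (2 ^ a * q),
        (A ((u + j) % n) ((v + j) % n) : ℝ) * (if y u = z v then 1 else 0) +
      ∑ u ∈ Ico (2 ^ a * q) n, ∑ v ∈ Ico (2 ^ a * q) n,
        (A ((u + j) % n) ((v + j) % n) : ℝ) * (if y u = y v then 1 else 0) := by
    rw [valF]
    push_cast
    rw [hsplit]
    simp_rw [hsplit]
    rw [Finset.sum_add_distrib, Finset.sum_add_distrib]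
    have e1 : ∑ i ∈ range (2 ^ a * q), ∑ i' ∈ range (2 ^ a * q),
        (A ((i + j) % n) ((i' + j) % n) : ℝ) * (if y i = y i' then 1 else 0) =
        ∑ u ∈ range (2 ^ a * q), ∑ v ∈ range (2 ^ a * q),
        (A ((u + j) % n) ((v + j) % n) : ℝ) * (if z u = z v then 1 else 0) := by
      refine Finset.sum_congr rfl fun u hu => Finset.sum_congr rfl fun v hv => ?_
      rw [hyz u (Finset.mem_range.1 hu), hyz v (Finset.mem_range.1 hv)]
    have e2 : ∑ u ∈ Ico (2 ^ a * q) n, ∑ v ∈ range (2 ^ a * q),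
        (A ((u + j) % n) ((v + j) % n) : ℝ) * (if y u = y v then 1 else 0) =
        ∑ u ∈ Ico (2 ^ a * q) n, ∑ v ∈ range (2 ^ a * q),
        (A ((u + j) % n) ((v + j) % n) : ℝ) * (if y u = z v then 1 else 0) := by
      refine Finset.sum_congr rfl fun u hu => Finset.sum_congr rfl fun v hv => ?_
      rw [hyz v (Finset.mem_range.1 hv)]
    have e3 : ∑ v ∈ range (2 ^ a * q), ∑ u ∈ Ico (2 ^ a * q) n,
        (A ((v + j) % n) ((u + j) % n) : ℝ) * (if y v = y u then 1 else 0) =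
        ∑ u ∈ Ico (2 ^ a * q) n, ∑ v ∈ range (2 ^ a * q),
        (A ((u + j) % n) ((v + j) % n) : ℝ) * (if y u = z v then 1 else 0) := by
      rw [Finset.sum_comm]
      refine Finset.sum_congr rfl fun u hu => Finset.sum_congr rfl fun v hv => ?_
      rw [hyz v (Finset.mem_range.1 hv), hs ((v + j) % n)]
      simp only [eq_comm]
    rw [e1, e2, e3]
    ring
  -- the test
  have htest : (testF a q n A j g y : ℝ) =
      ∑ u ∈ Ico (2 ^ a * q) n, ∑ t ∈ range q,
        (A ((u + j) % n) ((2 ^ a * t + bPos a g t + j) % n) : ℝ) * (2 * 2 ^ a *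
          (if y u = z (2 ^ a * t + bPos a g t) then 1 else 0)) +
      ∑ u ∈ Ico (2 ^ a * q) n, ∑ v ∈ Ico (2 ^ a * q) n,
        (A ((u + j) % n) ((v + j) % n) : ℝ) * (if y u = y v then 1 else 0) := by
    rw [testF]
    push_cast
    rw [hsplit]
    have e0 : ∑ i ∈ range (2 ^ a * q), ∑ i' ∈ range n,
        (if 2 ^ a * q ≤ i then (1 : ℝ) else 0) * (A ((i + j) % n) ((i' + j) % n) : ℝ) *
          ((if 2 ^ a * q ≤ i' then (1 : ℝ) else 0) * (if y i = y i' then 1 else 0) +
            (wS a q g i' : ℝ) * if y i = sS a q g i' then 1 else 0) = 0 := by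
      refine Finset.sum_eq_zero fun u hu => Finset.sum_eq_zero fun v _ => ?_
      rw [if_neg (by have := Finset.mem_range.1 hu; omega)]
      ring
    rw [e0, zero_add, ← Finset.sum_add_distrib]
    refine Finset.sum_congr rfl fun u hu => ?_
    have hu' := (Finset.mem_Ico.1 hu).1
    rw [if_pos hu', hsplit]
    congr 1
    · have : ∀ v ∈ range (2 ^ a * q), (1 : ℝ) * (A ((u + j) % n) ((v + j) % n) : ℝ) *
          ((if 2 ^ a * q ≤ v then (1 : ℝ) else 0) * (if y u = y v then 1 else 0) +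
            (wS a q g v : ℝ) * if y u = sS a q g v then 1 else 0) =
          if v % 2 ^ a = bPos a g (v / 2 ^ a) then
            (A ((u + j) % n) ((v + j) % n) : ℝ) * (2 * 2 ^ a * if y u = z v then 1 else 0)
          else 0 := by
        intro v hv
        have hv' := Finset.mem_range.1 hv
        rw [if_neg (by omega : ¬ 2 ^ a * q ≤ v)]
        by_cases h : v % 2 ^ a = bPos a g (v / 2 ^ a)
        · have hq : v / 2 ^ a < q := Nat.div_lt_of_lt_mul hv'
          have hv2 : 2 ^ a * (v / 2 ^ a) + bPos a g (v / 2 ^ a) = v := by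
            rw [← h]
            exact Nat.div_add_mod v (2 ^ a)
          have hg' := hg _ hq
          rw [hv2] at hg'
          have w1 : wS a q g v = 2 * 2 ^ a := if_pos ⟨hv', h⟩
          have w2 : sS a q g v = bSg a g (v / 2 ^ a) := if_pos ⟨hv', h⟩
          rw [w1, w2, if_pos h, hg']
          push_cast
          ring
        · have w1 : wS a q g v = 0 := if_neg fun h' => h h'.2
          rw [w1, if_neg h]
          push_cast
          ring
      rw [Finset.sum_congr rfl this, blk_sum]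
    · refine Finset.sum_congr rfl fun v hv => ?_
      have hv' := (Finset.mem_Ico.1 hv).1
      have w1 : wS a q g v = 0 := if_neg fun h' => absurd h'.1 (by omega)
      rw [if_pos hv', w1]
      push_cast
      ring
  rw [hval, htest, cst]
  have key : ∀ u ∈ Ico (2 ^ a * q) n,
      2 * ∑ v ∈ range (2 ^ a * q), (A ((u + j) % n) ((v + j) % n) : ℝ) *
        (if y u = z v then 1 else 0) -
      ∑ t ∈ range q, (A ((u + j) % n) ((2 ^ a * t + bPos a g t + j) % n) : ℝ) * (2 * 2 ^ a *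
          (if y u = z (2 ^ a * t + bPos a g t) then 1 else 0)) =
      (∑ v ∈ range (2 ^ a * q), (A ((u + j) % n) ((v + j) % n) : ℝ) -
        (2 : ℝ) ^ a * ∑ t ∈ Finset.range q,
          (A ((u + j) % n) ((2 ^ a * t + bPos a g t + j) % n) : ℝ)) +
      (2 * y u - 1) * err a q n A j g z u := by
    intro u hu
    have hu' := Finset.mem_Ico.1 hu
    have e1 : 2 * ∑ v ∈ range (2 ^ a * q), (A ((u + j) % n) ((v + j) % n) : ℝ) *
        (if y u = z v then 1 else 0) =
        ∑ v ∈ range (2 ^ a * q), (A ((u + j) % n) ((v + j) % n) : ℝ) + (2 * y u - 1) *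
          ∑ v ∈ range (2 ^ a * q), (A ((u + j) % n) ((v + j) % n) : ℝ) * (2 * z v - 1) := by
      rw [Finset.mul_sum, Finset.mul_sum, ← Finset.sum_add_distrib]
      refine Finset.sum_congr rfl fun v hv => ?_
      rw [eq_sign _ _ (hy u hu'.2) (hz v (lt_of_lt_of_le (Finset.mem_range.1 hv) hb))]
      ring
    have e2 : ∑ t ∈ range q, (A ((u + j) % n) ((2 ^ a * t + bPos a g t + j) % n) : ℝ) * (2 * 2 ^ a *
          (if y u = z (2 ^ a * t + bPos a g t) then 1 else 0)) =
        (2 : ℝ) ^ a * ∑ t ∈ Finset.range q,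
          (A ((u + j) % n) ((2 ^ a * t + bPos a g t + j) % n) : ℝ) +
        (2 * y u - 1) * ((2 : ℝ) ^ a * ∑ t ∈ Finset.range q,
          (A ((u + j) % n) ((2 ^ a * t + bPos a g t + j) % n) : ℝ) *
            (2 * z (2 ^ a * t + bPos a g t) - 1)) := by
      rw [Finset.mul_sum, Finset.mul_sum, Finset.mul_sum, ← Finset.sum_add_distrib]
      refine Finset.sum_congr rfl fun t ht => ?_
      rw [eq_sign _ _ (hy u hu'.2)
        (hz _ (lt_of_lt_of_le (pos_lt a q g t (Finset.mem_range.1 ht)) hb))]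
      ring
    rw [e1, e2, err]
    ring
  have hsum := Finset.sum_congr rfl key
  rw [Finset.sum_sub_distrib, Finset.sum_add_distrib, ← Finset.mul_sum] at hsum
  linarith

theorem pf_est : T_EST := by
  intro a q n A j g z hb _ hs hz hg x hx hxz
  rw [diff_eq a q n A j g z hb hs hz hg x hx hxz,
    diff_eq a q n A j g z hb hs hz hg z hz (fun _ _ => rfl)]
  have : cst a q n A j g z + ∑ u ∈ Ico (2 ^ a * q) n, (2 * (x u : ℝ) - 1) * err a q n A j g z u -
      (cst a q n A j g z + ∑ u ∈ Ico (2 ^ a * q) n, (2 * (z u : ℝ) - 1) * err a q n A j g z u) =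
      ∑ u ∈ Ico (2 ^ a * q) n, (2 * (x u - z u : ℝ)) * err a q n A j g z u := by
    rw [add_sub_add_left_eq_sub, ← Finset.sum_sub_distrib]
    exact Finset.sum_congr rfl fun u _ => by ring
  rw [this, Finset.mul_sum]
  refine Finset.sum_le_sum fun u hu => ?_
  have hu' := Finset.mem_Ico.1 hu
  have hx1 : (x u : ℝ) ≤ 1 := by exact_mod_cast hx u hu'.2
  have hz1 : (z u : ℝ) ≤ 1 := by exact_mod_cast hz u hu'.2
  have hx0 : (0 : ℝ) ≤ x u := Nat.cast_nonneg _
  have hz0 : (0 : ℝ) ≤ z u := Nat.cast_nonneg _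
  have h1 : |2 * (x u - z u : ℝ)| ≤ 2 := by
    rw [abs_le]
    constructor <;> linarith
  calc (2 * (x u - z u : ℝ)) * err a q n A j g z u ≤ |(2 * (x u - z u : ℝ)) * err a q n A j g z u| :=
        le_abs_self _
    _ = |2 * (x u - z u : ℝ)| * |err a q n A j g z u| := abs_mul _ _
    _ ≤ 2 * |err a q n A j g z u| := mul_le_mul_of_nonneg_right h1 (abs_nonneg _)

end Pool.Agent.H51.MC
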